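import Pool.Agent.LE.StmtsQE
import Pool.Agent.Helper56_LIR.CLE4
import Pool.Agent.Helper76_LQD.RAL

/-!
# CLS: a cluster which does not grow
-/

set_option autoImplicit false

open MeasureTheory ProbabilityTheory Function Filter

open scoped ENNReal BigOperators Topology NNReal ComplexOrder Matrix

noncomputable section

namespace Pool.Agent.LE.QD.H72

open Pool.Agent.Anderson hiding box mem_box card_box
open Pool.Agent.Loc hiding nb
open Pool.Agent.Mob Pool.Agent.Helper54.Bal
  Pool.Agent.Helper96.EXP Pool.Agent.BED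
open Pool.Agent.LE.MN Pool.Agent.LE.CL Pool.Agent.LE.CL.H48 Pool.Agent.LE.IR Pool.Agent.LE.IR.H56
open Pool.Agent.LE.QD.H76 (Hm hz_eq mul_rs hm_conj)

variable {d M : ℕ}

/-- the Hamiltonian on a real function -/
theorem hm_real [NeZero M] (W u : Tor d M → ℝ) (y : Tor d M) :
    (Hm W *ᵥ fun x => (u x : ℂ)) y =
      ((∑ i : Fin d, (u (y + ev i) + u (y - ev i)) + W y * u y : ℝ) : ℂ) := by
  unfold Hm
  rw [Matrix.add_mulVec, Pi.add_apply, Matrix.mulVec_diagonal, ← adj_mulVec]
  unfold Matrix.mulVec dotProduct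
  push_cast
  congr 1

/-! ### the coarse cubes -/

theorem mem_cub {b : Site d} {L : ℕ} {k y : Site d} :
    y ∈ cub b L k ↔ ∀ i, b i + L * k i ≤ y i ∧ y i < b i + L * (k i + 1) := by
  unfold cub
  rw [Fintype.mem_piFinset]
  simp only [Finset.mem_Ico]

theorem card_cub (b : Site d) (L : ℕ) (k : Site d) : (cub b L k).card = L ^ d := by
  unfold cub
  rw [Fintype.card_piFinset]
  have h : ∀ i : Fin d, (Finset.Ico (b i + L * k i) (b i + L * (k i + 1))).card = L := by
    intro i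
    rw [Int.card_Ico]
    have : b i + L * (k i + 1) - (b i + L * k i) = (L : ℤ) := by ring
    rw [this, Int.toNat_natCast]
  rw [Finset.prod_congr rfl fun i _ => h i, Finset.prod_const, Finset.card_univ, Fintype.card_fin]

theorem cub_disj {b : Site d} {L : ℕ} {k k' y : Site d} (hL : 1 ≤ L)
    (h : y ∈ cub b L k) (h' : y ∈ cub b L k') : k = k' := by
  rw [mem_cub] at h h'
  funext i
  have hL0 : (0 : ℤ) < L := by exact_mod_cast hL
  obtain ⟨h1, h2⟩ := h i
  obtain ⟨h3, h4⟩ := h' i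
  have h5 : (L : ℤ) * k i < L * (k' i + 1) := by linarith
  have h6 : (L : ℤ) * k' i < L * (k i + 1) := by linarith
  have h7 := lt_of_mul_lt_mul_left h5 hL0.le
  have h8 := lt_of_mul_lt_mul_left h6 hL0.le
  omega

/-- the corner of a cube -/
def crn (b : Site d) (L : ℕ) (k : Site d) : Site d := fun i => b i + L * k i

theorem crn_mem {b : Site d} {L : ℕ} (hL : 1 ≤ L) (k : Site d) : crn b L k ∈ cub b L k := by
  rw [mem_cub]
  intro i
  have hL0 : (0 : ℤ) < L := by exact_mod_cast hL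
  unfold crn
  constructor
  · exact le_rfl
  · linarith

theorem ti_cub [NeZero M] {b : Site d} {L : ℕ} {k y : Site d} (hLM : L ≤ M)
    (hy : y ∈ cub b L k) : ti M b y ∈ cbt (ti M b (crn b L k)) L := by
  unfold cbt
  rw [Finset.mem_filter]
  refine ⟨Finset.mem_univ _, fun i => ?_⟩
  rw [mem_cub] at hy
  obtain ⟨h1, h2⟩ := hy i
  have h3 : ti M b y i - ti M b (crn b L k) i = ((y i - (b i + L * k i) : ℤ) : ZMod M) := by
    unfold ti crn
    push_cast
    ring
  obtain ⟨t, ht⟩ : ∃ t : ℕ, (t : ℤ) = y i - (b i + L * k i) :=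
    ⟨(y i - (b i + L * k i)).toNat, Int.toNat_of_nonneg (by linarith)⟩
  have h4 : t < L := by
    have : (t : ℤ) < L := by
      rw [ht]
      linarith
    exact_mod_cast this
  rw [h3, ← ht, Int.cast_natCast, ZMod.val_natCast, Nat.mod_eq_of_lt (by omega)]
  exact h4

theorem cls (hsc : HscStmt) : ClsStmt := by
  classical
  intro d hd
  obtain ⟨B, hB⟩ : ∃ B : ℝ, B = 16 * 5 ^ d * (4 * d + 1) ^ 2 := ⟨_, rfl⟩
  have hB0 : 0 ≤ B := by rw [hB]; positivity
  have hd0 : (0 : ℝ) < d := by exact_mod_cast hd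
  refine ⟨200 * (2 ^ (d + 1) + B) + 128 * d * (d + 1), ?_, ?_⟩
  · have h1 : (0 : ℝ) ≤ 128 * d * (d + 1) := by positivity
    have h2 : (1 : ℝ) ≤ 2 ^ (d + 1) := one_le_pow₀ (by norm_num)
    linarith
  intro M _ V W N R r R₁ L n E η s a c₀ ε b C 𝒦 hη hη1 hE ha hε hL hn hR hM hW hbox hrR hC0 hC
    hU hK𝒦 hcard hdet hV hG hR₁ hs hc₀ hmss
  obtain ⟨K, hK⟩ : ∃ K : ℝ, K = 200 * (2 ^ (d + 1) + B) + 128 * d * (d + 1) := ⟨_, rfl⟩
  rw [← hK] at hR₁ hs ⊢
  have hKd : 128 * d * (d + 1) ≤ K := by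
    have h2 : (0 : ℝ) ≤ 2 ^ (d + 1) := by positivity
    linarith
  have hK1 : 200 * (2 ^ (d + 1) + B) ≤ K := by
    have h1 : (0 : ℝ) ≤ 128 * d * (d + 1) := by positivity
    linarith
  have hK0 : 0 < K := by
    have h1 : (0 : ℝ) < 128 * d * (d + 1) := by positivity
    linarith
  have hlog : 0 ≤ Real.log (1 / η) := Real.log_nonneg (by rw [le_div_iff₀ hη]; linarith)
  have hlR : 0 ≤ Real.log R := Real.log_natCast_nonneg R
  have hR₁0 : 1 ≤ R₁ := by
    by_contra hcon
    have h0 : R₁ = 0 := by omega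
    rw [h0, Nat.cast_zero, mul_zero] at hR₁
    have h1 : 0 < K * (a + 1 + Real.log (1 / η) + Real.log R) := by positivity
    linarith
  obtain ⟨κ, hκ⟩ : ∃ κ : ℝ, κ = η / (128 * d) := ⟨_, rfl⟩
  have hκ0 : 0 ≤ κ := by rw [hκ]; positivity
  have hφ : 16 * d * κ = η / 8 := by
    rw [hκ]
    field_simp
    norm_num
  have hκ1 : κ ≤ 1 := by
    rw [hκ, div_le_one (by positivity)]
    have h1 : (1 : ℝ) ≤ d := by exact_mod_cast hd
    linarith
  obtain ⟨Λ, hΛ⟩ : ∃ Λ : Finset (Site d), Λ = box 0 N := ⟨_, rfl⟩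
  rw [← hΛ] at hbox hU hdet hG
  obtain ⟨U, hUd⟩ : ∃ U : Finset (Site d), U = clu V Λ E s C (box b (r + R₁)) := ⟨_, rfl⟩
  rw [← hUd] at hU
  have hUb : U ⊆ box b (r + R₁) := sub_box hC hUd
  have hUR : U ⊆ box b R := fun y hy => box_mono b hrR (hUb hy)
  have hUR' : U ⊆ box b (R + L) := fun y hy => box_mono b (by omega) (hUb hy)
  have hCR : C ⊆ box b R := fun y hy => box_mono b (by omega) (hC hy)
  have hCR' : C ⊆ box b (R + L) := fun y hy => box_mono b (by omega) (hC hy)
  have hMR : 2 * R + 5 ≤ M := by omega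
  -- the coarse set
  obtain ⟨D, hD⟩ : ∃ D : Finset (Site d), D = 𝒦.biUnion (cub b L) := ⟨_, rfl⟩
  have hDR : D ⊆ box b (R + L) := by
    intro y hy
    rw [hD, Finset.mem_biUnion] at hy
    obtain ⟨k, hk, hy⟩ := hy
    exact hK𝒦 k hk hy
  have hDcard : D.card = 𝒦.card * L ^ d := by
    rw [hD, Finset.card_biUnion]
    · rw [Finset.sum_congr rfl fun k _ => card_cub b L k, Finset.sum_const, smul_eq_mul]
    · intro k _ k' _ hkk
      change Disjoint (cub b L k) (cub b L k')
      rw [Finset.disjoint_left]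
      intro y hy hy'
      exact hkk (cub_disj hL hy hy')
  have hUD : U ⊆ D := by
    intro y hy
    obtain ⟨k, hk, hy⟩ := hU y hy
    rw [hD, Finset.mem_biUnion]
    exact ⟨k, hk, hy⟩
  have hCU : C ⊆ U := by
    intro y hy
    rw [hUd, mem_clu]
    exact Or.inl hy
  -- the corners
  obtain ⟨𝒜, h𝒜⟩ : ∃ 𝒜 : Finset (Tor d M), 𝒜 = 𝒦.image fun k => ti M b (crn b L k) := ⟨_, rfl⟩
  have h𝒜card : 𝒜.card = 𝒦.card := by
    rw [h𝒜]
    refine Finset.card_image_of_injOn ?_
    intro k hk k' hk' hkk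
    have h1 := mem_box.1 (hK𝒦 k hk (crn_mem hL k))
    have h2 := mem_box.1 (hK𝒦 k' hk' (crn_mem hL k'))
    have h3 := congrArg (lf b) hkk
    dsimp only at h3
    rw [lf_ti hM (by omega : sd b (crn b L k) ≤ R + L + 2),
      lf_ti hM (by omega : sd b (crn b L k') ≤ R + L + 2)] at h3
    have h4 := crn_mem hL k (b := b)
    rw [h3] at h4
    exact cub_disj hL h4 (crn_mem hL k')
  have h𝒜ne : 𝒜.Nonempty := by
    obtain ⟨y, hy⟩ := hC0
    obtain ⟨k, hk, _⟩ := hU y (hCU hy)
    exact ⟨_, by rw [h𝒜]; exact Finset.mem_image_of_mem _ hk⟩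
  have hcov : ∀ x ∈ im M b D, ∃ a ∈ 𝒜, x ∈ cbt a L := by
    intro x hx
    unfold im at hx
    rw [Finset.mem_image] at hx
    obtain ⟨y, hy, rfl⟩ := hx
    rw [hD, Finset.mem_biUnion] at hy
    obtain ⟨k, hk, hy⟩ := hy
    refine ⟨ti M b (crn b L k), ?_, ti_cub (by omega) hy⟩
    rw [h𝒜]
    exact Finset.mem_image_of_mem _ hk
  have hcardT : (im M b D).card = 𝒜.card * L ^ d := by
    rw [card_im hM hDR, hDcard, h𝒜card]
  have hm := hmss 𝒜 (im M b D) h𝒜ne h𝒜card.le hcov hcardT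
  -- the functions
  have hω1 : ∀ y : Tor d M, (0 : ℝ) < (fun _ : Tor d M => (1 : ℝ)) y := fun _ => one_pos
  have hω2 : ∀ y : Tor d M, (fun _ : Tor d M => (1 : ℝ)) y ≤ 2 := fun _ => by norm_num
  have hnum := num_eps2 (d := d) (R := R) (n := r + R₁ + 1) (c := B) (η := η) (κ := κ)
    (s := s) (a := a) (K := 4 * d + 1) hR (by omega) hη hη1 (by positivity) (by
      rw [← hB]
      exact mul_le_of_le_one_right hB0 hη1) (m := R₁) (by
      refine le_trans ?_ hs
      have h1 : (d : ℝ) + 1 ≤ K := by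
        refine le_trans ?_ hKd
        have h2 : (1 : ℝ) ≤ 128 * d := by
          have h1 : (1 : ℝ) ≤ d := by exact_mod_cast hd
          linarith
        exact le_mul_of_one_le_left (by positivity) h2
      calc ((d : ℝ) + 1) * (Real.log (1 / η) + Real.log R) ≤
          K * (Real.log (1 / η) + Real.log R) := mul_le_mul_of_nonneg_right h1 (by linarith)
        _ ≤ K * (1 + Real.log (1 / η) + Real.log R) :=
            mul_le_mul_of_nonneg_left (by linarith) hK0.le) (by
      have h1 : 128 * d * (d + 1) * (a + 1 + Real.log (1 / η) + Real.log R) ≤ η * R₁ :=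
        le_trans (mul_le_mul_of_nonneg_right hKd (by linarith)) hR₁
      have h4 : κ * R₁ = η * R₁ / (128 * d) := by
        rw [hκ]
        ring
      rw [h4, le_div_iff₀ (by positivity)]
      have h5 : a ≤ (d + 1) * a := le_mul_of_one_le_left ha (by linarith)
      have h6 : a + (d + 1) * (Real.log (1 / η) + Real.log R) ≤
          (d + 1) * (a + 1 + Real.log (1 / η) + Real.log R) := by nlinarith
      calc (a + (d + 1) * (Real.log (1 / η) + Real.log R)) * (128 * d) ≤
          ((d + 1) * (a + 1 + Real.log (1 / η) + Real.log R)) * (128 * d) :=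
            mul_le_mul_of_nonneg_right h6 (by positivity)
        _ = 128 * d * (d + 1) * (a + 1 + Real.log (1 / η) + Real.log R) := by ring
        _ ≤ η * R₁ := h1)
  have hfin := hsc (Tor d M) (Hm W) (rs W ⟨E, η⟩) E η ε (B * η ^ 2) (im M b C) (im M b D)
    (gT (fun _ => 1) V Λ E κ b r U) (FT (fun _ => 1) V Λ E κ b r U)
    (eT (fun _ => 1) V Λ E κ b r U) ?_ hη hε ?_ ?_ ?_ ?_ ?_ ?_ hm
  · -- the conclusion
    have h1 : c₀ * C.card ≤ ∑ x ∈ im M b C, (rs W ⟨E, η⟩ x x).im := by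
      rw [← card_im hM hCR', mul_comm, ← nsmul_eq_mul]
      exact Finset.card_nsmul_le_sum _ _ _ fun x _ => hc₀ x
    have h2 := h1.trans hfin
    rw [hcardT, card_im hM hCR', h𝒜card] at h2
    have hCpos : (0 : ℝ) < C.card := by exact_mod_cast Finset.card_pos.2 hC0
    have hn0 : (0 : ℝ) < n := by exact_mod_cast hn
    have h3 : (𝒦.card : ℝ) ≤ 2 ^ (d + 1) * C.card / n := by
      rw [le_div_iff₀ hn0]
      have : ((n * 𝒦.card : ℕ) : ℝ) ≤ ((2 ^ (d + 1) * C.card : ℕ) : ℝ) := by exact_mod_cast hcard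
      push_cast at this
      linarith
    have h4 : ε * (((𝒦.card * L ^ d : ℕ) : ℝ)) ≤
        (2 ^ (d + 1) * (ε * (L : ℝ) ^ d / n)) * C.card := by
      push_cast
      have h5 : 0 ≤ ε * (L : ℝ) ^ d := by positivity
      have h6 := mul_le_mul_of_nonneg_left h3 h5
      calc ε * ((𝒦.card : ℝ) * L ^ d) = ε * (L : ℝ) ^ d * 𝒦.card := by ring
        _ ≤ ε * (L : ℝ) ^ d * (2 ^ (d + 1) * C.card / n) := h6
        _ = (2 ^ (d + 1) * (ε * (L : ℝ) ^ d / n)) * C.card := by ring
    have h5 : B * η ^ 2 * C.card / η = (B * η) * C.card := by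
      field_simp
    rw [h5] at h2
    have h6 : c₀ * C.card ≤ (200 * (2 ^ (d + 1) * (ε * (L : ℝ) ^ d / n) + B * η)) * C.card := by
      refine h2.trans ?_
      nlinarith
    have h7 := le_of_mul_le_mul_right h6 hCpos
    have h8 : 0 ≤ ε * (L : ℝ) ^ d / n := by positivity
    have h9 : (0 : ℝ) ≤ 2 ^ (d + 1) := by positivity
    refine h7.trans ?_
    calc 200 * (2 ^ (d + 1) * (ε * (L : ℝ) ^ d / n) + B * η) ≤
        (200 * (2 ^ (d + 1) + B)) * (ε * (L : ℝ) ^ d / n + η) := by
          nlinarith [mul_nonneg hB0 h8, mul_nonneg h9 hη.le]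
      _ ≤ K * (ε * (L : ℝ) ^ d / n + η) :=
          mul_le_mul_of_nonneg_right hK1 (by positivity)
  · -- Hermitian
    ext x y
    rw [Matrix.conjTranspose_apply]
    exact hm_conj W y x
  · -- C ⊆ C'
    intro x hx
    rw [mem_im hM hCR'] at hx
    rw [mem_im hM hDR]
    exact hUD (hCU hx)
  · rw [← hz_eq]
    exact mul_rs W (by exact hη.ne')
  · intro x _ y hy
    rw [mem_im hM hDR] at hy
    unfold gT
    have h1 : lf b y ∉ U := fun h => hy (hUD h)
    simp only [psr, tg, if_neg h1, mul_zero, zero_div, Complex.ofReal_zero]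
  · -- the equation
    intro x _ y
    have h1 : gT (fun _ : Tor d M => (1 : ℝ)) V Λ E κ b r U x =
        fun y => ((psr V Λ E κ b r U (lf b x) (lf b y) : ℝ) : ℂ) := by
      funext y
      unfold gT
      rw [div_one]
    rw [h1, hm_real]
    have h2 := nb_lf hMR (u := psr V Λ E κ b r U (lf b x)) (fun w hw => psr_out hUR hw) y
    rw [h2]
    have h3 := real_eq (V := V) (Λ := Λ) (E := E) (κ := κ) (b := b) (r₀ := r) (C' := U)
      (lf b x) (lf b y)
    have h4 : (if lf b y = lf b x then (1 : ℝ) else 0) = if y = x then 1 else 0 := by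
      by_cases hyx : y = x
      · rw [if_pos hyx, if_pos (by rw [hyx])]
      · rw [if_neg hyx, if_neg fun hh => hyx (lf_inj b hh)]
    rw [h4] at h3
    have h5 : W y * psr V Λ E κ b r U (lf b x) (lf b y) =
        V (lf b y) * psr V Λ E κ b r U (lf b x) (lf b y) := by
      by_cases hy : lf b y ∈ U
      · have h6 := hW (lf b y) (box_mono b (by omega) (hUR hy))
        rw [ti_lf] at h6
        rw [h6]
      · simp only [psr, tg, if_neg hy, mul_zero]
    have h6 : (if y = x then (1 : ℂ) else 0) = ((if y = x then (1 : ℝ) else 0 : ℝ) : ℂ) := by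
      split_ifs <;> simp
    rw [h5, h6]
    unfold FT eT
    rw [← Complex.ofReal_mul, ← Complex.ofReal_sub, ← Complex.ofReal_add, ← Complex.ofReal_add]
    congr 1
    linear_combination (-1 : ℝ) * h3
  · -- the error of the weight
    intro v
    have h1 := FT_norm (V := V) (Λ := Λ) (E := E) (r₀ := r) hMR hUR hω1 hω2 hκ0 hκ1
      (im M b C) v
    rw [hφ] at h1
    exact h1
  · -- the error of the truncation
    intro x hx
    rw [mem_im hM hCR'] at hx
    have hxb := mem_box.1 (hC hx)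
    have h1 := eT_norm (V := V) (Λ := Λ) (E := E) (κ := κ) (b := b) (r₀ := r) (m := R₁)
      (C' := U) (Q := (4 * d + 1) * (Real.exp (-s) + Real.exp (a - κ * R₁))) hω1 hω2 hUb
      (x := x) (by omega) (by
        intro y hy
        exact er_le hκ0 hdet (fun y hy => hbox (box_mono b (by omega) hy)) hC hR₁0 hUd
          (fun x hx => hV x (box_mono b (by omega) hx)) hE
          (fun x hx y hy => hG x (box_mono b (by omega) hx) y (box_mono b (by omega) hy)) hx hy)
    refine h1.trans (hnum.trans ?_)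
    refine mul_le_mul_of_nonneg_left ?_ hB0
    exact pow_le_pow_of_le_one hη.le hη1 (by omega)

end Pool.Agent.LE.QD.H72
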